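import Pool.Agent.Lib.MP_f399a8_ntG.Mg1

/-!
# Schneider's question for split semisimple simply connected groups over `ℚ_p`
-/

namespace Pool.Agent.Results.MP_f399a8_nt.SchneiderSplit

open Pool.Agent.Lib.MP_f399a8_nt.G3

/-- Let `G` be the group of `ℚ_p`-points of a split semisimple simply connected group, realized as a Chevalley
group: `P` is a reduced root datum whose coroots span the cocharacter lattice `Y`, `M` is an admissible lattice
in a representation whose weights generate the character lattice `X`, and `G = GG M p` is generated by the
elements `x_α (s) = exp (s E_α)`.  Let `b` be a base of `P` (it defines the Borel subgroup `B = T U`), let `C` be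
a finite extension of `ℚ_p` and let `χ` be a continuous character of the split torus `T = TT M p` with values
in `Cˣ`.  If the continuous induction of `χ` from `B` to `G` is absolutely reducible (over some finite extension
`C'` of `C` it has a closed `G`-stable subspace different from `0` and from itself), then there are a positive
root `α` and an integer `a ≤ 0` such that `(χ δ ^ (-1 / 2)) (α^∨ (x)) = x⁻¹ x ^ a` for all `x`. -/
theorem result {ι X Y κ : Type*} [Finite ι] [AddCommGroup X] [AddCommGroup Y] [Fintype κ]
    [DecidableEq κ] {P : RootPairing ι ℤ X Y} (hP : P.IsReduced)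
    (hsc : AddSubgroup.closure (Set.range P.coroot) = ⊤) (M : ChevMod P κ) (b : P.Base)
    {p : ℕ} [Fact p.Prime] {C C' : Type*} [NormedField C] [NormedField C']
    [NormedAlgebra ℚ_[p] C] [NormedAlgebra ℚ_[p] C'] [NormedAlgebra C C']
    [IsScalarTower ℚ_[p] C C'] [FiniteDimensional ℚ_[p] C] [FiniteDimensional C C']
    (χ : TT M p →* Cˣ) (hχ : Continuous χ) (hred : IsReducible M b (extend (C' := C') χ)) :
    SchneiderCond M b χ :=
  schneider_final hP hsc M b χ hχ hred

end Pool.Agent.Results.MP_f399a8_nt.SchneiderSplit
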